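import Pool.Agent.R924.J2

set_option autoImplicit false

/-!
MP_3e7e0d_al, Q1: the answer is no.  There are a ring `R` and an injective `R`-module `A ≠ 0` with
`Extⁱ(A, P) = 0` for all `i ≥ 1` and all projective `P` (so `⊥𝒫-dim A = 0`), but `pd A = ∞`.
-/

namespace Pool.Agent.Results.MP_3e7e0d_al.PerpDimension

open CategoryTheory Pool.Agent.R924

/-- Q1: for every ring `R` and every module `A` of finite injective dimension, the projective
dimension of `A` equals its `⊥𝒫`-dimension. -/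
def Q1 : Prop :=
  ∀ (R : Type) [Ring R] (A : ModuleCat.{0} R), (∃ n : ℕ, HasInjectiveDimensionLE A n) →
    resDim IsProj A = resDim InPerpProj A

/-- Q1 is false: there are a ring `R` and an `R`-module `A` with `id A = 0`, `⊥𝒫-dim A = 0` and
`pd A = ∞`. -/
theorem result :
    (∃ (R : Type) (_ : Ring R) (A : ModuleCat.{0} R),
      injectiveDimension A = 0 ∧ InPerpProj A ∧ resDim InPerpProj A = 0 ∧
        projectiveDimension A = ⊤ ∧ resDim IsProj A = ⊤) ∧ ¬ Q1 := by
  obtain ⟨h1, h2, h3, h4, h5⟩ := SR.dims (k := ℚ)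
  refine ⟨⟨SR ℚ, inferInstance, _, h1, h4, h5, h2, h3⟩, ?_⟩
  intro h
  have h6 := h (SR ℚ) (ModuleCat.of (SR ℚ) (SR.Sm ℚ 0))
    ⟨0, (injectiveDimension_le_iff _ 0).1 (by rw [h1]; exact le_rfl)⟩
  rw [h3, h5] at h6
  exact ENat.top_ne_zero h6

end Pool.Agent.Results.MP_3e7e0d_al.PerpDimension
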